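import Mathlib
import Pool.Agent.N378.RD.D
set_option autoImplicit false

/-!
# Stein's restriction conjecture for random densities with few random phases

Let `n ≥ 3`, let `σ` be the surface measure on the unit sphere `S` of `ℝ^n`, let
`ft f ξ = ∫ e^{-2πi x·ξ} f(x) dσ(x)` be the Fourier transform of the measure `f dσ`, and let `G j` be the
Gaussian average on the sphere at scale `2^{-j}` (kernel `exp(-4^j |x-y|²)`, divided by its mass).

For each scale `j` cut the sphere into finitely many cells; the cells are arbitrary measurable sets, of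
measure at most `K 2^{-γ (n-1) j}`, where `1/2 < γ ≤ 1` (for `γ = 1` the measure of a cap of radius
`2^{-j}`). Attach to the cells of all scales random phases `u` with `|u| ≤ 1`, for which only the fourth
order orthogonality `E(u_a ū_b u_c ū_e) = 0` is required unless the four indices pair up; for instance
independent random signs, or the functions `e^{2πi m t}`, `t ∈ [0,1]`, with different elements `m` of a
Sidon set. Let `u_j(x)` be the phase of the cell of scale `j` containing `x`, and consider the random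
density `f = ∑_j G j (u_j h_j)`, where the `h_j` are arbitrary bounded measurable functions.

**Theorem.** Let `∑_j sup |h_j| < ∞`. Then `f` is a continuous function on the sphere. If
`2 + 2/(γ (n-1)) < q < 4`, `|h_j| ≤ M` and `∫ |h_j|² dσ ≤ L` for all `j`, then
`E ∫_{ℝ^n} |(f dσ)^|^q ≤ C (K M²)^{q/2-1} L`,
where the constant `C` depends only on `n, γ, q`; in particular it does not depend on the number of
scales, nor on the cells. Almost surely `(f dσ)^ ∈ L^q(ℝ^n)` for all `q > 2 + 2/(γ (n-1))`.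

For `γ = 1` this is the whole range `q > 2n/(n-1)` of Stein's conjecture; for `γ = 1/2` it would be the
Stein-Tomas range `q > 2(n+1)/(n-1)`, where no randomness is needed, so that every `γ > 1/2`, that is
`2^{γ (n-1) j}` random phases at scale `2^{-j}`, gives exponents below Stein-Tomas. If all phases are `1`
and `γ = 1`, `h_j = 0` for `j ≠ J` and `h_J = g`, the same estimate, uniformly in `J`, would be the
conjecture itself.
-/

namespace Pool.Agent.Results.MP_6cbfb8_an.RandomDensities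

open MeasureTheory ProbabilityTheory Set Metric Complex Filter Topology
open scoped ENNReal NNReal RealInnerProductSpace ComplexConjugate

universe u

abbrev E (n : ℕ) := EuclideanSpace ℝ (Fin n)

/-- surface measure on the unit sphere -/
noncomputable def sigma (n : ℕ) : Measure (sphere (0 : E n) 1) := (volume : Measure (E n)).toSphere

/-- the Fourier transform of the measure `f dσ` -/
noncomputable def ft {n : ℕ} (f : sphere (0 : E n) 1 → ℂ) (ξ : E n) : ℂ :=
  ∫ x, Complex.exp (-(2 * Real.pi * ⟪(x : E n), ξ⟫ : ℝ) * I) * f x ∂(sigma n)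

/-- the Gaussian average at scale `2^(-j)` on the sphere -/
noncomputable def G {n : ℕ} (j : ℕ) (h : sphere (0 : E n) 1 → ℂ) (x : sphere (0 : E n) 1) : ℂ :=
  (∫ y : sphere (0 : E n) 1, ((Real.exp (-(4 ^ j * ‖(x : E n) - y‖ ^ 2)) : ℝ) : ℂ) * h y ∂(sigma n)) /
    ((∫ y : sphere (0 : E n) 1, Real.exp (-(4 ^ j * ‖(x : E n) - y‖ ^ 2)) ∂(sigma n) : ℝ) : ℂ)

/-- the four indices pair up -/
def PairUp (a b c e : ℕ × ℕ) : Prop := (a = b ∧ c = e) ∨ (a = c ∧ b = e) ∨ (a = e ∧ b = c)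

/-- Random phases `u j i` (the phase of the cell number `i` of scale `j`): complex random variables of
modulus at most one with `E(u_a ū_b u_c ū_e) = 0` unless the four indices pair up. -/
structure RandomPhases {Ω : Type u} [MeasurableSpace Ω] (P : Measure Ω) (u : ℕ → ℕ → Ω → ℂ) :
    Prop where
  meas : ∀ j i, Measurable (u j i)
  bdd : ∀ j i ω, ‖u j i ω‖ ≤ 1
  orth : ∀ a b c e : ℕ × ℕ, ¬ PairUp a b c e →
    ∫ ω, u a.1 a.2 ω * conj (u b.1 b.2 ω) * (u c.1 c.2 ω * conj (u e.1 e.2 ω)) ∂P = 0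

/-- For each scale `j` the sphere is cut into finitely many measurable cells `{x | Q j x = i}`, of
measure at most `K 2^(-γ (n-1) j)`. -/
structure Cells {n : ℕ} (γ K : ℝ) (Q : ℕ → sphere (0 : E n) 1 → ℕ) : Prop where
  meas : ∀ j, Measurable (Q j)
  finite : ∀ j, (range (Q j)).Finite
  small : ∀ j i, sigma n {x | Q j x = i} ≤ ENNReal.ofReal (K * 2 ^ (-(γ * ((n : ℝ) - 1) * j)))

/-- the random density `∑_j G j (u_j h_j)` -/
noncomputable def density {n : ℕ} {Ω : Type u} (u : ℕ → ℕ → Ω → ℂ)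
    (Q : ℕ → sphere (0 : E n) 1 → ℕ) (h : ℕ → sphere (0 : E n) 1 → ℂ) (ω : Ω)
    (x : sphere (0 : E n) 1) : ℂ :=
  ∑' j, G j (fun y => u j (Q j y) ω * h j y) x

open Pool.Agent.N378.RD

lemma kernel_eq {d : ℕ} (j : ℕ) (x y : sphere (0 : E (d + 2 + 1)) 1) :
    Real.exp (-(4 ^ j * ‖(x : E (d + 2 + 1)) - y‖ ^ 2)) = kk (lj j) x y := by
  unfold kk lj
  congr 1
  have hx : ‖(x : E (d + 2 + 1))‖ = 1 := by simp
  have hy : ‖(y : E (d + 2 + 1))‖ = 1 := by simp
  rw [norm_sub_sq_real, hx, hy]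
  ring

lemma G_eq {d : ℕ} (j : ℕ) (h : sphere (0 : E (d + 2 + 1)) 1 → ℂ) (x : sphere (0 : E (d + 2 + 1)) 1) :
    G j h x = Gi (lj j) h x := by
  unfold G Gi
  simp only [kernel_eq]
  congr 2
  exact mm_eq d (lj j) x

lemma density_eq {d : ℕ} {Ω : Type u} (u : ℕ → ℕ → Ω → ℂ)
    (Q : ℕ → sphere (0 : E (d + 2 + 1)) 1 → ℕ) (h : ℕ → sphere (0 : E (d + 2 + 1)) 1 → ℂ) (ω : Ω) :
    density u Q h ω = rdi u Q h ω := by
  funext x
  unfold density rdi
  congr 1
  funext j
  rw [G_eq]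
  rfl

/-- **Theorem.** Let `n ≥ 3`, `1/2 < γ ≤ 1`, and let `f = ∑_j G j (u_j h_j)` be a random density, with
random phases `u_j` (`|u_j| ≤ 1`, fourth-order orthogonality) on measurable cells of measure
`≤ K 2^(-γ (n-1) j)` and with measurable functions `h_j`, `∑_j sup |h_j| < ∞`. Then
* `f` is continuous on the sphere;
* for `2 + 2/(γ (n-1)) < q < 4`, `E ∫ |(f dσ)^|^q ≤ C(n, γ, q) (K M²)^(q/2-1) L` if `|h_j| ≤ M` and
  `∫ |h_j|² dσ ≤ L` for all `j`;
* almost surely `(f dσ)^ ∈ L^q(ℝ^n)` for all `q > 2 + 2/(γ (n-1))`. -/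
theorem result (n : ℕ) (hn : 3 ≤ n) (γ : ℝ) (hγ : 1 / 2 < γ) (hγ1 : γ ≤ 1) :
    ∃ C : ℝ → ℝ, ∀ (Ω : Type u) [MeasurableSpace Ω] (P : Measure Ω) [IsProbabilityMeasure P]
      (u : ℕ → ℕ → Ω → ℂ), RandomPhases P u →
      ∀ (K : ℝ), 0 < K → ∀ Q : ℕ → sphere (0 : E n) 1 → ℕ, Cells γ K Q →
      ∀ h : ℕ → sphere (0 : E n) 1 → ℂ, (∀ j, Measurable (h j)) →
      ∀ m : ℕ → ℝ, Summable m → (∀ j x, ‖h j x‖ ≤ m j) →
      (∀ ω, Continuous (density u Q h ω)) ∧
      (∀ q : ℝ, 2 + 2 / (γ * ((n : ℝ) - 1)) < q → q < 4 →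
        ∀ M L : ℝ, (∀ j x, ‖h j x‖ ≤ M) → (∀ j, ∫⁻ x, ‖h j x‖ₑ ^ 2 ∂(sigma n) ≤ ENNReal.ofReal L) →
        ∫⁻ ω, ∫⁻ ξ : E n, ‖ft (density u Q h ω) ξ‖ₑ ^ q ∂(volume : Measure (E n)) ∂P ≤
          ENNReal.ofReal (C q * (K * M ^ 2) ^ (q / 2 - 1) * L)) ∧
      (∀ᵐ ω ∂P, ∀ q : ℝ, 2 + 2 / (γ * ((n : ℝ) - 1)) < q →
        ∫⁻ ξ : E n, ‖ft (density u Q h ω) ξ‖ₑ ^ q < ∞) := by
  obtain ⟨d, rfl⟩ : ∃ d, n = d + 2 + 1 := ⟨n - 3, by omega⟩
  have hcast : (((d + 2 + 1 : ℕ) : ℝ) - 1) = (d : ℝ) + 2 := by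
    push_cast
    ring
  rw [hcast]
  have hγ0 : 0 < γ := by linarith
  have hg1 : 1 < γ * ((d : ℝ) + 2) := by
    have : (0 : ℝ) ≤ d := by positivity
    nlinarith
  have hg0 : 0 < γ * ((d : ℝ) + 2) := by linarith
  set q0 : ℝ := 2 + 2 / (γ * ((d : ℝ) + 2)) with hq0
  have hq02 : 2 < q0 := by
    have : 0 < 2 / (γ * ((d : ℝ) + 2)) := by positivity
    linarith
  have hq04 : q0 < 4 := by
    have : 2 / (γ * ((d : ℝ) + 2)) < 2 := by
      rw [div_lt_iff₀ hg0]
      linarith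
    linarith
  have hp : ∀ q : ℝ, q0 < q → 1 + 1 / (γ * ((d : ℝ) + 2)) < q / 2 := by
    intro q hq
    have e : 2 / (γ * ((d : ℝ) + 2)) = 2 * (1 / (γ * ((d : ℝ) + 2))) := by ring
    rw [hq0, e] at hq
    linarith
  choose! C1 hC1 hmain using fun (q : ℝ) (hq : q0 < q) => main_sq d γ hγ0 hγ1 (q / 2) (hp q hq)
  refine ⟨fun q => 3 * C1 q, ?_⟩
  intro Ω _ P _ u hu K hK Q hQ h hhm m hm hhb
  obtain ⟨y0⟩ : Nonempty (S d) := inferInstance
  have hm0 : ∀ j, 0 ≤ m j := fun j => (norm_nonneg _).trans (hhb j y0)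
  have hr : Phs P u := ⟨hu.meas, hu.bdd, fun a b c e h => hu.orth a b c e h⟩
  have hden : ∀ ω, density u Q h ω = rdi u Q h ω := density_eq u Q h
  simp only [hden]
  have hcell : ∀ j i, sig d (Q j ⁻¹' {i}) ≤
      ENNReal.ofReal (K * 2 ^ (-(γ * ((d : ℝ) + 2) * j))) := by
    intro j i
    have := hQ.small j i
    rw [hcast] at this
    exact this
  have hfin : ∀ j, ∃ N : ℕ, ∀ y, Q j y < N := by
    intro j
    obtain ⟨N, hN⟩ := (hQ.finite j).bddAbove
    exact ⟨N + 1, fun y => Nat.lt_succ_of_le (hN (mem_range_self y))⟩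
  choose N hN using hfin
  have hNJ : ∀ J, ∀ j < J, ∀ y, Q j y < (Finset.range J).sup N := fun J j hj y =>
    lt_of_lt_of_le (hN j y) (Finset.le_sup (f := N) (Finset.mem_range.2 hj))
  have hhi : ∀ j, Integrable (h j) (sig d) := fun j =>
    Integrable.of_bound (hhm j).aestronglyMeasurable (m j) (Eventually.of_forall (hhb j))
  have hfatou := fun (q : ℝ) (B : ℝ≥0∞) =>
    fatou_bound d q P u hr.meas hr.bdd Q hQ.meas N hN h hhm m hm hhb B
  -- the bound for all truncations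
  have hkey : ∀ q : ℝ, q0 < q → q < 4 → ∀ M L : ℝ, (∀ j x, ‖h j x‖ ≤ M) →
      (∀ j, ∫⁻ x, ‖h j x‖ₑ ^ 2 ∂(sig d) ≤ ENNReal.ofReal L) → ∀ J,
      ∫⁻ ω, ∫⁻ ξ : Pool.Agent.N378.RD.E d, ‖fti (rd u Q h J ω) ξ‖ₑ ^ q
        ∂(volume : Measure (Pool.Agent.N378.RD.E d)) ∂P ≤
          ENNReal.ofReal (3 * C1 q * (K * M ^ 2) ^ (q / 2 - 1) * L) := by
    intro q hq hq4 M L hM hL J
    have hM0 : 0 ≤ M := (norm_nonneg _).trans (hM 0 y0)
    have hC0 := hC1 q hq
    refine (expect_sq d q (by linarith) hq4 Ω P u hr J _ Q hQ.meas (hNJ J) h hhi).trans ?_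
    have h1 := hmain q hq K hK M hM0 J ((Finset.range J).sup N) Q hQ.meas hcell h hhm hM
      (ENNReal.ofReal L) hL
    calc ENNReal.ofReal 3 * _
        ≤ ENNReal.ofReal 3 *
          (ENNReal.ofReal (C1 q * (K * M ^ 2) ^ (q / 2 - 1)) * ENNReal.ofReal L) :=
          mul_le_mul' le_rfl h1
      _ = _ := by
          rw [← mul_assoc, ← ENNReal.ofReal_mul (by positivity), ← ENNReal.ofReal_mul (by positivity)]
          congr 1
          ring
  refine ⟨fun ω => rdi_cont u hr.bdd Q hQ.meas h hhm m hm hhb ω, ?_, ?_⟩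
  · intro q hq hq4 M L hM hL
    exact (hfatou q _ (hkey q hq hq4 M L hM hL)).2
  · -- almost sure statement
    set T : ℝ := ∑' j, m j with hT
    have hT0 : 0 ≤ T := tsum_nonneg hm0
    have hTb : ∀ j x, ‖h j x‖ ≤ T := fun j x => (hhb j x).trans (hm.le_tsum j (fun i _ => hm0 i))
    have hL : ∀ j, ∫⁻ x, ‖h j x‖ₑ ^ 2 ∂(sig d) ≤ ENNReal.ofReal (T ^ 2 * (sig d).real univ) := by
      intro j
      calc ∫⁻ x, ‖h j x‖ₑ ^ 2 ∂(sig d) ≤ ∫⁻ _, ENNReal.ofReal (T ^ 2) ∂(sig d) := by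
            apply lintegral_mono
            intro x
            simp only
            rw [ENNReal.ofReal_pow hT0, ← ofReal_norm]
            exact pow_le_pow_left' (ENNReal.ofReal_le_ofReal (hTb j x)) 2
        _ = _ := by
            rw [lintegral_const, ENNReal.ofReal_mul (by positivity), ofReal_measureReal]
    set w : ℕ → ℝ := fun k => q0 + (4 - q0) / 2 * (1 / ((k : ℝ) + 1)) with hw
    have hw1 : ∀ k, q0 < w k := by
      intro k
      have : 0 < (4 - q0) / 2 * (1 / ((k : ℝ) + 1)) := mul_pos (by linarith) (by positivity)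
      simp only [hw]
      linarith
    have hw2 : ∀ k, w k < 4 := by
      intro k
      have h1 : 1 / ((k : ℝ) + 1) ≤ 1 := by
        rw [div_le_one (by positivity)]
        have : (0 : ℝ) ≤ k := by positivity
        linarith
      have h2 : (4 - q0) / 2 * (1 / ((k : ℝ) + 1)) ≤ (4 - q0) / 2 * 1 :=
        mul_le_mul_of_nonneg_left h1 (by linarith)
      simp only [hw]
      linarith
    have h1 : ∀ k : ℕ, ∀ᵐ ω ∂P, ∫⁻ ξ : Pool.Agent.N378.RD.E d,
        ‖fti (rdi u Q h ω) ξ‖ₑ ^ (w k) < ∞ := by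
      intro k
      obtain ⟨ha, hb⟩ := hfatou _ _ (hkey _ (hw1 k) (hw2 k) T _ hTb hL)
      exact ae_lt_top ha (lt_of_le_of_lt hb ENNReal.ofReal_lt_top).ne
    filter_upwards [ae_all_iff.2 h1] with ω hω
    intro q hq
    obtain ⟨k, hk⟩ := exists_nat_one_div_lt (sub_pos.2 hq)
    have hkq : w k < q := by
      have h2 : (4 - q0) / 2 * (1 / ((k : ℝ) + 1)) ≤ 1 * (1 / ((k : ℝ) + 1)) := by
        gcongr
        linarith
      simp only [hw]
      linarith
    have hqk0 : 0 < w k := by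
      have := hw1 k
      linarith
    have hbd : ∀ ξ : Pool.Agent.N378.RD.E d,
        ‖fti (rdi u Q h ω) ξ‖ₑ ≤ ENNReal.ofReal T * sig d univ := by
      intro ξ
      unfold fti
      refine (enorm_integral_le_lintegral_enorm _).trans ?_
      calc ∫⁻ x, ‖ch ξ x * rdi u Q h ω x‖ₑ ∂(sig d) ≤ ∫⁻ x, ENNReal.ofReal T ∂(sig d) := by
            apply lintegral_mono
            intro x
            simp only
            rw [← ofReal_norm, norm_mul, ch_norm, one_mul]
            exact ENNReal.ofReal_le_ofReal (rdi_bound u hr.bdd Q h m hm hhb ω x)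
        _ = _ := by rw [lintegral_const]
    have hBfin : (ENNReal.ofReal T * sig d univ) ^ (q - w k) < ∞ := by
      apply ENNReal.rpow_lt_top_of_nonneg (by linarith)
      exact ENNReal.mul_ne_top ENNReal.ofReal_ne_top (measure_ne_top _ _)
    calc ∫⁻ ξ : Pool.Agent.N378.RD.E d, ‖fti (rdi u Q h ω) ξ‖ₑ ^ q
        ≤ ∫⁻ ξ : Pool.Agent.N378.RD.E d,
          (ENNReal.ofReal T * sig d univ) ^ (q - w k) * ‖fti (rdi u Q h ω) ξ‖ₑ ^ (w k) := by
          apply lintegral_mono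
          intro ξ
          simp only
          calc ‖fti (rdi u Q h ω) ξ‖ₑ ^ q = ‖fti (rdi u Q h ω) ξ‖ₑ ^ (q - w k) *
                ‖fti (rdi u Q h ω) ξ‖ₑ ^ (w k) := by
                rw [← ENNReal.rpow_add_of_nonneg _ _ (by linarith) hqk0.le]
                congr 1
                ring
            _ ≤ _ := by
                refine mul_le_mul' ?_ le_rfl
                exact ENNReal.rpow_le_rpow (hbd ξ) (by linarith)
      _ = (ENNReal.ofReal T * sig d univ) ^ (q - w k) *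
          ∫⁻ ξ : Pool.Agent.N378.RD.E d, ‖fti (rdi u Q h ω) ξ‖ₑ ^ (w k) := by
          rw [lintegral_const_mul' _ _ hBfin.ne]
      _ < ∞ := ENNReal.mul_lt_top hBfin (hω k)

end Pool.Agent.Results.MP_6cbfb8_an.RandomDensities
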